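import Pool.Agent.H51Q.Sim
import Pool.Agent.H72.KarpS.Ratio

/-!
Colouring block by block.
-/

set_option autoImplicit false

namespace Pool.Agent.H51Q

open Finset Pool.Agent.H85.Online Pool.Agent.H72.Karp Pool.Agent.H72.KarpS Filter

variable {n : ℕ} {p : ℝ}

/-! ### algorithms from functions of few pairs -/

theorem answers_congr {A B : Algo n} (h : A.ask = B.ask) (G : SimpleGraph (Fin n)) (t : ℕ) :
    A.answers G t = B.answers G t := by
  induction t with
  | zero => rfl
  | succ t ih => rw [Algo.answers, Algo.answers, ih, h]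

theorem length_answers (A : Algo n) (G : SimpleGraph (Fin n)) (t : ℕ) :
    (A.answers G t).length = t := by
  induction t with
  | zero => rfl
  | succ t ih => rw [Algo.answers, List.length_append, ih, List.length_singleton]

theorem answers_prefix {A : Algo n} {G G' : SimpleGraph (Fin n)} {q : ℕ}
    (h : A.answers G q = A.answers G' q) : ∀ t ≤ q, A.answers G t = A.answers G' t := by
  induction q with
  | zero =>
    intro t ht
    rw [Nat.le_zero.1 ht]
    rfl
  | succ q ih =>
    intro t ht
    rcases ht.eq_or_lt with rfl | ht'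
    · exact h
    · rw [Algo.answers, Algo.answers] at h
      exact ih (List.append_inj' h rfl).1 t (by omega)

theorem exists_algo {q : ℕ} (hn : 0 < n) (E : Finset (Fin n × Fin n)) (hE : E.card ≤ q)
    (F : SimpleGraph (Fin n) → Fin n → ℕ)
    (hF : ∀ G G' : SimpleGraph (Fin n), (∀ e ∈ E, (G.Adj e.1 e.2 ↔ G'.Adj e.1 e.2)) → F G = F G') :
    ∃ A : Algo n, ∀ G, A.output q G = F G := by
  classical
  set L := E.toList with hL
  set ask : List Bool → Fin n × Fin n := fun a => L.getD a.length (⟨0, hn⟩, ⟨0, hn⟩) with hask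
  set A0 : Algo n := ⟨ask, fun _ _ => 0⟩ with hA0
  refine ⟨⟨ask, fun a => if h : ∃ G, A0.answers G q = a then F h.choose else fun _ => 0⟩,
    fun G => ?_⟩
  rw [Algo.output]
  simp only
  have hans : Algo.answers ⟨ask, fun a => if h : ∃ G, A0.answers G q = a then F h.choose
      else fun _ => 0⟩ G q = A0.answers G q := by
    apply answers_congr
    rw [hA0]
  rw [hans]
  have hex : ∃ G', A0.answers G' q = A0.answers G q := ⟨G, rfl⟩
  rw [dif_pos hex]
  have hspec := hex.choose_spec
  refine hF _ _ fun e he => ?_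
  have hmem : e ∈ L := Finset.mem_toList.2 he
  obtain ⟨t, ht, hte⟩ := List.getElem_of_mem hmem
  have htq : t < q := lt_of_lt_of_le ht (by rw [hL, Finset.length_toList]; exact hE)
  have h1 := answers_prefix hspec (t + 1) htq
  rw [Algo.answers, Algo.answers] at h1
  have h2 := answers_prefix hspec t htq.le
  have h3 := (List.append_inj' h1 rfl).2
  rw [h2] at h3
  have h4 := List.head_eq_of_cons_eq h3
  have h5 : A0.ask (A0.answers G t) = e := by
    rw [hA0, hask]
    simp only
    rw [length_answers, List.getD_eq_getElem _ _ ht, hte]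
  rw [h5] at h4
  exact decide_eq_decide.1 h4

/-! ### the block colouring -/

/-- the vertex number `i` of block number `j` -/
def bemb {n m : ℕ} (j : ℕ) (hj : j < n / m) : Fin m ↪ Fin n where
  toFun i := ⟨j * m + i, by
    have h1 : (j + 1) * m ≤ n / m * m := Nat.mul_le_mul_right _ hj
    have h2 : n / m * m ≤ n := Nat.div_mul_le_self _ _
    have h3 := i.isLt
    have h4 : (j + 1) * m = j * m + m := by ring
    omega⟩
  inj' i i' h := by
    have := congrArg Fin.val h
    simp only at this
    exact Fin.ext (by omega)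

open Classical in
/-- an optimal colouring of a graph on `Fin m`, with colours below the chromatic number -/
noncomputable def optCol {m : ℕ} (H : SimpleGraph (Fin m)) : Fin m → ℕ :=
  fun i => ((H.colorable_chromaticNumber_of_fintype).some i : ℕ)

theorem optCol_lt {m : ℕ} (H : SimpleGraph (Fin m)) (i : Fin m) :
    optCol H i < H.chromaticNumber.toNat := by
  unfold optCol
  exact Fin.isLt _

theorem optCol_ne {m : ℕ} (H : SimpleGraph (Fin m)) {i j : Fin m} (h : H.Adj i j) :
    optCol H i ≠ optCol H j := by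
  unfold optCol
  intro h'
  exact (H.colorable_chromaticNumber_of_fintype).some.valid h (Fin.ext h')

theorem chi_toNat_le {m : ℕ} (H : SimpleGraph (Fin m)) : H.chromaticNumber.toNat ≤ m := by
  have h : H.Colorable m := by
    have := H.colorable_of_fintype
    rwa [Fintype.card_fin] at this
  have h2 := h.chromaticNumber_le
  exact ENat.toNat_le_of_le_natCast h2

open Classical in
/-- the block colouring -/
noncomputable def blockCol {n : ℕ} (m : ℕ) (G : SimpleGraph (Fin n)) (v : Fin n) : ℕ :=
  if h : (v : ℕ) / m < n / m then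
    ((v : ℕ) / m) * m + optCol (G.comap (bemb ((v : ℕ) / m) h)) ⟨(v : ℕ) % m, by
      apply Nat.mod_lt
      rcases Nat.eq_zero_or_pos m with rfl | hm
      · simp at h
      · exact hm⟩
  else v

theorem blockCol_pos {m : ℕ} {G : SimpleGraph (Fin n)} {v : Fin n}
    (h : (v : ℕ) / m < n / m) (hm : 0 < m) : blockCol m G v =
    ((v : ℕ) / m) * m + optCol (G.comap (bemb ((v : ℕ) / m) h)) ⟨(v : ℕ) % m,
      Nat.mod_lt _ hm⟩ := by
  unfold blockCol
  rw [dif_pos h]

theorem blockCol_neg {m : ℕ} {G : SimpleGraph (Fin n)} {v : Fin n}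
    (h : ¬ (v : ℕ) / m < n / m) : blockCol m G v = v := by
  unfold blockCol
  rw [dif_neg h]

theorem bemb_mod {m : ℕ} {v : Fin n} (h : (v : ℕ) / m < n / m) (hm : 0 < m) :
    bemb ((v : ℕ) / m) h ⟨(v : ℕ) % m, Nat.mod_lt _ hm⟩ = v := by
  apply Fin.ext
  show (v : ℕ) / m * m + (v : ℕ) % m = v
  exact Nat.div_add_mod' _ _

theorem blockCol_bounds {m : ℕ} {G : SimpleGraph (Fin n)} {v : Fin n}
    (h : (v : ℕ) / m < n / m) (hm : 0 < m) :
    blockCol m G v / m = (v : ℕ) / m ∧ blockCol m G v % m =
      optCol (G.comap (bemb ((v : ℕ) / m) h)) ⟨(v : ℕ) % m, Nat.mod_lt _ hm⟩ := by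
  rw [blockCol_pos h hm]
  set c := optCol (G.comap (bemb ((v : ℕ) / m) h)) ⟨(v : ℕ) % m, Nat.mod_lt _ hm⟩ with hc
  have hcm : c < m := lt_of_lt_of_le (optCol_lt _ _) (chi_toNat_le _)
  constructor
  · rw [Nat.mul_comm, Nat.mul_add_div hm, Nat.div_eq_of_lt hcm, add_zero]
  · rw [Nat.mul_comm, Nat.mul_add_mod, Nat.mod_eq_of_lt hcm]

theorem optCol_congr {m j j' : ℕ} {G : SimpleGraph (Fin n)} {hj : j < n / m} {hj' : j' < n / m}
    (h : j = j') (i : Fin m) :
    optCol (G.comap (bemb j hj)) i = optCol (G.comap (bemb j' hj')) i := by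
  subst h
  rfl

theorem blockCol_proper {m : ℕ} (hm : 0 < m) (G : SimpleGraph (Fin n)) {u v : Fin n}
    (h : G.Adj u v) : blockCol m G u ≠ blockCol m G v := by
  intro heq
  by_cases hu : (u : ℕ) / m < n / m
  · by_cases hv : (v : ℕ) / m < n / m
    · have h1 := blockCol_bounds (G := G) hu hm
      have h2 := blockCol_bounds (G := G) hv hm
      rw [heq] at h1
      have hb : (u : ℕ) / m = (v : ℕ) / m := h1.1.symm.trans h2.1
      have hc := h1.2.symm.trans h2.2
      rw [optCol_congr (hj' := hv) hb] at hc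
      refine optCol_ne (G.comap (bemb ((v : ℕ) / m) hv)) ?_ hc
      rw [SimpleGraph.comap_adj, bemb_mod hv hm]
      have h3 : bemb ((v : ℕ) / m) hv ⟨(u : ℕ) % m, Nat.mod_lt _ hm⟩ = u := by
        apply Fin.ext
        show (v : ℕ) / m * m + (u : ℕ) % m = u
        rw [← hb]
        exact Nat.div_add_mod' _ _
      rw [h3]
      exact h
    · have h1 := blockCol_bounds (G := G) hu hm
      rw [heq, blockCol_neg hv] at h1
      omega
  · by_cases hv : (v : ℕ) / m < n / m
    · have h1 := blockCol_bounds (G := G) hv hm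
      rw [← heq, blockCol_neg hu] at h1
      omega
    · rw [blockCol_neg hu, blockCol_neg hv] at heq
      exact h.ne (Fin.ext heq)

/-- the number of colours -/
theorem blockCol_card {m : ℕ} (hm : 0 < m) (G : SimpleGraph (Fin n)) (K : ℝ)
    (hK : ∀ (j : ℕ) (hj : j < n / m), ((G.comap (bemb j hj)).chromaticNumber.toNat : ℝ) ≤ K)  :
    (((Finset.univ : Finset (Fin n)).image (blockCol m G)).card : ℝ) ≤ (n / m : ℕ) * K + m := by
  classical
  have hsub : (Finset.univ : Finset (Fin n)).image (blockCol m G) ⊆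
      ((Finset.range (n / m)).attach.biUnion fun j =>
        (Finset.range (G.comap (bemb j.1 (Finset.mem_range.1 j.2))).chromaticNumber.toNat).image
          fun c => j.1 * m + c) ∪ (Finset.Ico (n / m * m) n) := by
    intro x hx
    obtain ⟨v, -, rfl⟩ := Finset.mem_image.1 hx
    rw [Finset.mem_union]
    by_cases hv : (v : ℕ) / m < n / m
    · left
      rw [Finset.mem_biUnion]
      refine ⟨⟨(v : ℕ) / m, Finset.mem_range.2 hv⟩, Finset.mem_attach _ _, ?_⟩
      rw [Finset.mem_image]
      refine ⟨_, Finset.mem_range.2 (optCol_lt _ ⟨(v : ℕ) % m, Nat.mod_lt _ hm⟩), ?_⟩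
      rw [blockCol_pos hv hm]
    · right
      rw [blockCol_neg hv, Finset.mem_Ico]
      refine ⟨?_, v.isLt⟩
      have h1 : n / m ≤ (v : ℕ) / m := not_lt.1 hv
      calc n / m * m ≤ (v : ℕ) / m * m := Nat.mul_le_mul_right _ h1
        _ ≤ v := Nat.div_mul_le_self _ _
  have h1 := (Finset.card_le_card hsub).trans (Finset.card_union_le _ _)
  have h2 : (((Finset.range (n / m)).attach.biUnion fun j =>
        (Finset.range (G.comap (bemb j.1 (Finset.mem_range.1 j.2))).chromaticNumber.toNat).image
          fun c => j.1 * m + c).card : ℝ) ≤ (n / m : ℕ) * K := by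
    calc (((Finset.range (n / m)).attach.biUnion fun j =>
        (Finset.range (G.comap (bemb j.1 (Finset.mem_range.1 j.2))).chromaticNumber.toNat).image
          fun c => j.1 * m + c).card : ℝ)
        ≤ ∑ j ∈ (Finset.range (n / m)).attach, (((Finset.range (G.comap (bemb j.1
            (Finset.mem_range.1 j.2))).chromaticNumber.toNat).image
          fun c => j.1 * m + c).card : ℝ) := by
          exact_mod_cast Finset.card_biUnion_le
      _ ≤ ∑ _j ∈ (Finset.range (n / m)).attach, K := by
          refine Finset.sum_le_sum fun j _ => ?_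
          refine le_trans ?_ (hK j.1 (Finset.mem_range.1 j.2))
          have := Finset.card_image_le (s := Finset.range (G.comap (bemb j.1
            (Finset.mem_range.1 j.2))).chromaticNumber.toNat) (f := fun c => j.1 * m + c)
          rw [Finset.card_range] at this
          exact_mod_cast this
      _ = (n / m : ℕ) * K := by
          rw [Finset.sum_const, Finset.card_attach, Finset.card_range, nsmul_eq_mul]
  have h3 : ((Finset.Ico (n / m * m) n).card : ℝ) ≤ m := by
    rw [Nat.card_Ico]
    have h4 := Nat.div_add_mod' n m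
    have h5 := Nat.mod_lt n hm
    have : n - n / m * m ≤ m := by omega
    exact_mod_cast this
  have h1' : (((Finset.univ : Finset (Fin n)).image (blockCol m G)).card : ℝ) ≤
      (((Finset.range (n / m)).attach.biUnion fun j =>
        (Finset.range (G.comap (bemb j.1 (Finset.mem_range.1 j.2))).chromaticNumber.toNat).image
          fun c => j.1 * m + c).card : ℝ) + ((Finset.Ico (n / m * m) n).card : ℝ) := by
    exact_mod_cast h1
  linarith

/-- the pairs in a block -/
def blockPairs (n m : ℕ) : Finset (Fin n × Fin n) :=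
  Finset.univ.filter fun e => (e.1 : ℕ) / m = (e.2 : ℕ) / m

theorem card_blockPairs {m : ℕ} (hm : 0 < m) : (blockPairs n m).card ≤ n * m := by
  classical
  have h : (blockPairs n m).card ≤ ((Finset.univ : Finset (Fin n)) ×ˢ Finset.range m).card := by
    refine Finset.card_le_card_of_injOn (fun e => (e.1, (e.2 : ℕ) % m)) ?_ ?_
    · intro e _
      rw [Finset.mem_coe, Finset.mem_product]
      exact ⟨Finset.mem_univ _, Finset.mem_range.2 (Nat.mod_lt _ hm)⟩
    · rintro ⟨a, b⟩ he ⟨a', b'⟩ he' heq
      rw [Finset.mem_coe, blockPairs, Finset.mem_filter] at he he'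
      have h1 : a = a' := congrArg Prod.fst heq
      have h2 : (b : ℕ) % m = (b' : ℕ) % m := congrArg Prod.snd heq
      subst h1
      refine Prod.ext rfl (Fin.ext ?_)
      have h3 : (b : ℕ) / m = (b' : ℕ) / m := he.2.symm.trans he'.2
      show (b : ℕ) = (b' : ℕ)
      rw [← Nat.div_add_mod (b : ℕ) m, h2, h3, Nat.div_add_mod]
  rwa [Finset.card_product, Finset.card_univ, Fintype.card_fin, Finset.card_range] at h

theorem blockCol_local {m : ℕ} (hm : 0 < m) {G G' : SimpleGraph (Fin n)}
    (h : ∀ e ∈ blockPairs n m, (G.Adj e.1 e.2 ↔ G'.Adj e.1 e.2)) :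
    blockCol m G = blockCol m G' := by
  funext v
  by_cases hv : (v : ℕ) / m < n / m
  · rw [blockCol_pos hv hm, blockCol_pos hv hm]
    have : G.comap (bemb ((v : ℕ) / m) hv) = G'.comap (bemb ((v : ℕ) / m) hv) := by
      ext i i'
      rw [SimpleGraph.comap_adj, SimpleGraph.comap_adj]
      refine h (bemb ((v : ℕ) / m) hv i, bemb ((v : ℕ) / m) hv i') ?_
      rw [blockPairs, Finset.mem_filter]
      refine ⟨Finset.mem_univ _, ?_⟩
      show ((v : ℕ) / m * m + (i : ℕ)) / m = ((v : ℕ) / m * m + (i' : ℕ)) / m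
      rw [Nat.mul_comm, Nat.mul_add_div hm, Nat.mul_add_div hm, Nat.div_eq_of_lt i.isLt,
        Nat.div_eq_of_lt i'.isLt]
    rw [this]
  · rw [blockCol_neg hv, blockCol_neg hv]

/-- the induced subgraph on the image of an embedding is a random graph -/
theorem Prob_comap (h0 : 0 < p) (h1 : p < 1) {m : ℕ} (s : Fin m ↪ Fin n)
    (P : SimpleGraph (Fin m) → Prop) :
    Prob p (fun G : SimpleGraph (Fin n) => P (G.comap s)) = Prob p P := by
  classical
  rw [Prob_eq, Prob_eq, EG_eq, EG_eq]
  have h := EE_comp (p := p) h0 h1 (pmap_injective s)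
    (fun ω : Prs (Fin m) → Bool => if P (gr ω) then (1 : ℝ) else 0)
  rw [← h]
  congr 1
  funext ω
  rw [gr_comp]

end Pool.Agent.H51Q
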