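import Pool.Agent.H51Q.Sim

/-!
The probability that the output of an algorithm contains a large family of large independent
classes, for a given set of merging times.
-/

set_option autoImplicit false

namespace Pool.Agent.H51Q

open Finset Pool.Agent.H85.Online

variable {n : ℕ}

/-! ### the number of internal pairs -/

/-- the graph of the internal pairs -/
def KG (f : Fin n → ℕ) (R : Finset (Fin n)) : SimpleGraph (Fin n) where
  Adj u v := u ≠ v ∧ Int f R u v
  symm := ⟨fun _ _ h => ⟨h.1.symm, h.2.symm⟩⟩
  loopless := ⟨fun _ h => h.1 rfl⟩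

open Classical in
/-- the internal pairs -/
noncomputable def FP (f : Fin n → ℕ) (R : Finset (Fin n)) : Finset (Sym2 (Fin n)) :=
  (KG f R).edgeFinset

theorem mem_FP {f : Fin n → ℕ} {R : Finset (Fin n)} {u v : Fin n} :
    s(u, v) ∈ FP f R ↔ u ≠ v ∧ Int f R u v := by
  classical
  unfold FP
  rw [SimpleGraph.mem_edgeFinset, SimpleGraph.mem_edgeSet]
  rfl

/-- the class of `u` -/
noncomputable def cls (f : Fin n → ℕ) (u : Fin n) : Finset (Fin n) :=
  Finset.univ.filter fun v => f v = f u

theorem two_card_FP (f : Fin n → ℕ) (R : Finset (Fin n)) :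
    2 * (FP f R).card + (cover f R).card = ∑ u ∈ cover f R, (cls f u).card := by
  classical
  have h := (KG f R).sum_degrees_eq_twice_card_edges
  have h1 : ∑ u, (KG f R).degree u = ∑ u ∈ cover f R, (KG f R).degree u := by
    symm
    refine Finset.sum_subset (Finset.subset_univ _) fun u _ hu => ?_
    rw [← SimpleGraph.card_neighborFinset_eq_degree, Finset.card_eq_zero,
      Finset.eq_empty_iff_forall_notMem]
    intro v hv
    rw [SimpleGraph.mem_neighborFinset] at hv
    exact hu hv.2.mem_left
  have h2 : ∀ u ∈ cover f R, (KG f R).degree u + 1 = (cls f u).card := by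
    intro u hu
    have hcls : cls f u = insert u ((KG f R).neighborFinset u) := by
      ext v
      rw [Finset.mem_insert, SimpleGraph.mem_neighborFinset]
      unfold cls
      rw [Finset.mem_filter]
      unfold cover at hu
      rw [Finset.mem_filter] at hu
      constructor
      · rintro ⟨-, hv⟩
        by_cases huv : v = u
        · exact Or.inl huv
        · right
          exact ⟨fun h => huv h.symm, hv.symm, hu.2⟩
      · rintro (rfl | hv)
        · exact ⟨Finset.mem_univ _, rfl⟩
        · exact ⟨Finset.mem_univ _, hv.2.1.symm⟩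
    rw [hcls, Finset.card_insert_of_notMem (by simp),
      SimpleGraph.card_neighborFinset_eq_degree]
  rw [← Finset.sum_congr rfl h2, Finset.sum_add_distrib, ← h1, h, Finset.sum_const,
    smul_eq_mul, mul_one]
  rfl

/-- Cauchy-Schwarz -/
theorem sq_cover_le (f : Fin n → ℕ) (R : Finset (Fin n)) :
    ((cover f R).card : ℝ) ^ 2 ≤ (R.card : ℝ) * ∑ u ∈ cover f R, ((cls f u).card : ℝ) := by
  classical
  set C := cover f R with hC
  have hmaps : ∀ u ∈ C, f u ∈ R.image f := by
    intro u hu
    rw [hC, cover, Finset.mem_filter] at hu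
    obtain ⟨-, r, hr, h⟩ := hu
    exact Finset.mem_image.2 ⟨r, hr, h⟩
  set g : ℕ → ℝ := fun c => ((C.filter fun u => f u = c).card : ℝ) with hg
  have h1 : ((C.card : ℕ) : ℝ) = ∑ c ∈ R.image f, g c := by
    rw [Finset.card_eq_sum_card_fiberwise hmaps]
    push_cast
    rfl
  have h2 : ∑ u ∈ C, ((cls f u).card : ℝ) = ∑ c ∈ R.image f, g c ^ 2 := by
    rw [← Finset.sum_fiberwise_of_maps_to hmaps]
    refine Finset.sum_congr rfl fun c hc => ?_
    obtain ⟨r, hr, rfl⟩ := Finset.mem_image.1 hc
    have h3 : ∀ u ∈ C.filter (fun u => f u = f r), ((cls f u).card : ℝ) = g (f r) := by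
      intro u hu
      rw [Finset.mem_filter] at hu
      rw [hg]
      simp only
      congr 2
      ext v
      unfold cls
      rw [Finset.mem_filter, Finset.mem_filter, hC, cover, Finset.mem_filter, hu.2]
      constructor
      · rintro ⟨h4, h5⟩
        exact ⟨⟨h4, r, hr, h5.symm⟩, h5⟩
      · rintro ⟨⟨h4, _⟩, h5⟩
        exact ⟨h4, h5⟩
    rw [Finset.sum_congr rfl h3, Finset.sum_const, nsmul_eq_mul, sq]
  rw [h1, h2]
  refine sq_sum_le_card_mul_sum_sq.trans ?_
  have h4 : ((R.image f).card : ℝ) ≤ R.card := by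
    exact_mod_cast Finset.card_image_le
  refine mul_le_mul_of_nonneg_right h4 ?_
  exact Finset.sum_nonneg fun c _ => sq_nonneg _

theorem FP_lower {f : Fin n → ℕ} {R : Finset (Fin n)} {a : ℝ} 
    (h : a * R.card ≤ (cover f R).card) :
    (a - 1) * (cover f R).card ≤ 2 * ((FP f R).card : ℝ) := by
  have h1 := sq_cover_le f R
  have h2 : 2 * ((FP f R).card : ℝ) + ((cover f R).card : ℝ)
      = ∑ u ∈ cover f R, ((cls f u).card : ℝ) := by
    exact_mod_cast two_card_FP f R
  set c : ℝ := ((cover f R).card : ℝ) with hc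
  set S : ℝ := ∑ u ∈ cover f R, ((cls f u).card : ℝ) with hS
  have hc0 : 0 ≤ c := Nat.cast_nonneg _
  have hS0 : 0 ≤ S := Finset.sum_nonneg fun _ _ => Nat.cast_nonneg _
  have hR0 : (0 : ℝ) ≤ R.card := Nat.cast_nonneg _
  have key : a * c ≤ S := by
    rcases hR0.eq_or_lt with hR | hR
    · rw [← hR, zero_mul] at h1
      have : c = 0 := by
        have := sq_nonneg c
        exact pow_eq_zero_iff (two_ne_zero) |>.1 (le_antisymm h1 this)
      rw [this, mul_zero]
      exact hS0
    · have h3 : a * R.card * c ≤ R.card * S := by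
        calc a * R.card * c ≤ c * c := mul_le_mul_of_nonneg_right h hc0
          _ = c ^ 2 := (sq c).symm
          _ ≤ R.card * S := h1
      have h4 : (R.card : ℝ) * (a * c) ≤ R.card * S := by linarith
      exact le_of_mul_le_mul_left h4 hR
  linarith

/-! ### probability -/

variable {p : ℝ}

theorem Prob_fiber' {β : Type} [DecidableEq β] (g : SimpleGraph (Fin n) → β)
    (A : SimpleGraph (Fin n) → Prop) :
    Prob p A = ∑ b ∈ (Finset.univ : Finset (SimpleGraph (Fin n))).image g,
      Prob p (fun G => g G = b ∧ A G) := by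
  classical
  unfold Prob
  rw [Finset.sum_comm]
  refine Finset.sum_congr rfl fun G _ => ?_
  rw [Finset.sum_eq_single (g G)]
  · simp
  · intro b _ hb
    rw [if_neg]
    rintro ⟨h, _⟩
    exact hb h.symm
  · intro h
    exact absurd (Finset.mem_image_of_mem _ (Finset.mem_univ G)) h

/-- the simulated run with merging times `T` gives the answers `b`, and the answers which are not
forced are about pairs outside the classes -/
def Ev (A : Algo n) (q : ℕ) (T : Finset ℕ) (R : Finset (Fin n)) (b : List Bool)
    (H : SimpleGraph (Fin n)) : Prop :=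
  (sim A T H q).1 = b ∧ ∀ t < q, ¬ Forced A T H t →
      ¬ Int (A.col b) R (A.ask (sim A T H t).1).1 (A.ask (sim A T H t).1).2

theorem Ev_congr {A : Algo n} {q : ℕ} {T : Finset ℕ} {R : Finset (Fin n)} {b : List Bool}
    {H H' : SimpleGraph (Fin n)}
    (hH : ∀ u v, ¬ Int (A.col b) R u v → (H.Adj u v ↔ H'.Adj u v)) (h : Ev A q T R b H) :
    Ev A q T R b H' := by
  obtain ⟨h1, h2⟩ := h
  have hs := sim_congr hH h2
  refine ⟨by rw [hs q le_rfl, h1], fun t ht hf => ?_⟩
  rw [hs t ht.le]
  refine h2 t ht fun hf' => hf ?_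
  unfold Forced at hf' ⊢
  rw [hs t ht.le]
  exact hf'

theorem Ev_free {A : Algo n} {q : ℕ} {T : Finset ℕ} {R : Finset (Fin n)} {b : List Bool}
    {u v : Fin n} (h : s(u, v) ∈ FP (A.col b) R) : u ≠ v ∧ Free (Ev A q T R b) u v := by
  rw [mem_FP] at h
  refine ⟨h.1, fun G => ?_⟩
  have hH : ∀ x y, ¬ Int (A.col b) R x y →
      ((G ⊔ SimpleGraph.edge u v).Adj x y ↔ G.Adj x y) := by
    intro x y hxy
    rw [SimpleGraph.sup_adj, SimpleGraph.edge_adj]
    constructor
    · rintro (h' | ⟨h' | h', -⟩)
      · exact h'
      · rw [h'.1, h'.2] at hxy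
        exact absurd h.2 hxy
      · rw [h'.1, h'.2] at hxy
        exact absurd h.2.symm hxy
    · exact fun h' => Or.inl h'
  exact ⟨Ev_congr hH, Ev_congr fun x y hxy => (hH x y hxy).symm⟩

/-- The output of the algorithm has a family of classes, those of the vertices in `R`, which are
independent sets, which cover at least `m` vertices and which have at least `a` vertices on
average. -/
def Good (A : Algo n) (q : ℕ) (m a : ℝ) (R : Finset (Fin n)) (G : SimpleGraph (Fin n)) : Prop :=
  (∀ u v, Int (A.output q G) R u v → ¬ G.Adj u v) ∧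
    m ≤ (cover (A.output q G) R).card ∧ a * R.card ≤ (cover (A.output q G) R).card

/-- the bound for given merging times -/
theorem prob_fixed (h0 : 0 < p) (h1 : p < 1) (A : Algo n) (q : ℕ) (T : Finset ℕ)
    (R : Finset (Fin n)) {m a w : ℝ} (ha : 1 ≤ a) (hw : w ≤ max m (max (T.card : ℝ) (a * R.card))) :
    Prob p (fun G => times A G (A.output q G) R q = T ∧ Good A q m a R G) ≤
      Real.sqrt (1 - p) ^ ((a - 1) * w) := by
  classical
  set r : ℝ := Real.sqrt (1 - p) with hr
  have hr0 : 0 < r := Real.sqrt_pos.2 (by linarith)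
  have hr1 : r ≤ 1 := by
    rw [hr]
    exact Real.sqrt_le_one.2 (by linarith)
  have hr2 : r ^ 2 = 1 - p := Real.sq_sqrt (by linarith)
  set E : SimpleGraph (Fin n) → Prop :=
    fun G => times A G (A.output q G) R q = T ∧ Good A q m a R G with hE
  set g : SimpleGraph (Fin n) → List Bool := fun G => (sim A T G q).1 with hg
  -- the good graphs
  have hEv : ∀ G, E G → (sim A T G q).1 = A.answers G q ∧ Ev A q T R (g G) G ∧
      (∀ e ∈ FP (A.col (g G)) R, e ∉ G.edgeSet) ∧
      (a - 1) * w ≤ 2 * ((FP (A.col (g G)) R).card : ℝ) := by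
    rintro G ⟨hT, hind, hm, hR⟩
    have hs := fun t ht => sim_eq (A := A) (G := G) (H := G) (f := A.output q G) (R := R) (q := q)
      hind (fun _ _ _ => Iff.rfl) t ht
    rw [hT] at hs
    have hans : (sim A T G q).1 = A.answers G q := by rw [hs q le_rfl]
    have hcol : A.col (g G) = A.output q G := by
      rw [hg, Algo.output]
      simp only
      rw [hans]
    refine ⟨hans, ⟨rfl, fun t ht hf => ?_⟩, ?_, ?_⟩
    · rw [hcol]
      have := external_of (A := A) (G := G) (H := G) (f := A.output q G) (R := R) (q := q)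
        hind (fun _ _ _ => Iff.rfl) t ht
      rw [hT] at this
      exact this hf
    · intro e
      induction e using Sym2.ind with
      | _ x y =>
      intro he
      rw [hcol, mem_FP] at he
      exact hind x y he.2
    · rw [hcol]
      have h3 := FP_lower hR
      have h4 : w ≤ (cover (A.output q G) R).card := by
        refine hw.trans (max_le hm (max_le ?_ hR))
        rw [← hT]
        exact_mod_cast card_times_le A G (A.output q G) R q
      have h5 := mul_le_mul_of_nonneg_left h4 (show 0 ≤ a - 1 by linarith)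
      linarith
  rw [Prob_fiber' g]
  calc ∑ b ∈ (Finset.univ : Finset (SimpleGraph (Fin n))).image g,
        Prob p (fun G => g G = b ∧ E G)
      ≤ ∑ b ∈ (Finset.univ : Finset (SimpleGraph (Fin n))).image g,
        r ^ ((a - 1) * w) * Prob p (fun G => g G = b ∧ True) := by
        refine Finset.sum_le_sum fun b _ => ?_
        by_cases hex : ∃ G, g G = b ∧ E G
        · obtain ⟨G0, hG0, hEG0⟩ := hex
          have hcard := (hEv G0 hEG0).2.2.2
          rw [hG0] at hcard
          calc Prob p (fun G => g G = b ∧ E G)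
              ≤ Prob p (fun G => Ev A q T R b G ∧ ∀ e ∈ FP (A.col b) R, e ∉ G.edgeSet) := by
                refine Prob_mono h0 h1 ?_
                rintro G ⟨hGb, hEG⟩
                obtain ⟨-, h2, h3, -⟩ := hEv G hEG
                rw [hGb] at h2 h3
                exact ⟨h2, h3⟩
            _ = (1 - p) ^ (FP (A.col b) R).card * Prob p (Ev A q T R b) :=
                Prob_and_no_edges _ _ fun u v huv => Ev_free huv
            _ ≤ r ^ ((a - 1) * w) * Prob p (fun G => g G = b ∧ True) := by
                refine mul_le_mul ?_ (Prob_mono h0 h1 fun G hG => ⟨hG.1, trivial⟩)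
                  (Prob_nonneg h0 h1 _) (Real.rpow_nonneg hr0.le _)
                rw [← hr2, ← pow_mul, ← Real.rpow_natCast]
                refine Real.rpow_le_rpow_of_exponent_ge hr0 hr1 ?_
                push_cast
                exact hcard
        · have h3 : Prob p (fun G => g G = b ∧ E G) = 0 := by
            unfold Prob
            refine Finset.sum_eq_zero fun G _ => if_neg fun h => hex ⟨G, h⟩
          rw [h3]
          exact mul_nonneg (Real.rpow_nonneg hr0.le _) (Prob_nonneg h0 h1 _)
    _ = r ^ ((a - 1) * w) * Prob p (fun _ : SimpleGraph (Fin n) => True) := by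
        rw [← Finset.mul_sum, ← Prob_fiber' g]
    _ = r ^ ((a - 1) * w) := by rw [Prob_true h1, mul_one]

end Pool.Agent.H51Q
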