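import Pool.Agent.H51Q.Union
import Pool.Agent.H72.KarpS.Ratio

/-!
The asymptotic lower bound.
-/

set_option autoImplicit false

namespace Pool.Agent.H51Q

open Finset Pool.Agent.H85.Online Pool.Agent.H72.Karp Pool.Agent.H72.KarpS Filter

variable {n : ℕ} {p : ℝ}

theorem lower (h0 : 0 < p) (h1 : p < 1) {δ ε : ℝ} (hδ : 0 ≤ δ) (hε : 0 < ε) :
    ∃ c : ℝ, 0 < c ∧ ∀ᶠ n : ℕ in atTop, ∀ (A : Algo n) (q : ℕ) (m : ℝ),
      (q : ℝ) ≤ (n : ℝ) ^ (1 + δ) → (n : ℝ) ^ (1 - c) ≤ m →
      Prob p (fun G => ∃ R, Good A q m ((2 * δ + ε) * LL p n) R G) ≤ (n : ℝ) ^ (-(c * m)) := by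
  set α : ℝ := -Real.log (1 - p) with hα
  have hα0 : 0 < α := neg_log_pos h0 h1
  have heα : Real.exp (-α) = 1 - p := by
    rw [hα, neg_neg, Real.exp_log (by linarith)]
  set c : ℝ := min (ε / 8) (1 / 2) with hc
  have hc0 : 0 < c := lt_min (by positivity) (by norm_num)
  have hc8 : c ≤ ε / 8 := min_le_left _ _
  have hc2 : c ≤ 1 / 2 := min_le_right _ _
  set κ : ℝ := α / (2 * δ + ε) with hκ
  have hden : 0 < 2 * δ + ε := by positivity
  have hκ0 : 0 < κ := by positivity
  refine ⟨c, hc0, ?_⟩
  filter_upwards [log_nat_tendsto.eventually_ge_atTop (α / (2 * δ + ε)),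
    log_nat_tendsto.eventually_ge_atTop (8 / ε * (α / 2 + κ)),
    log_nat_tendsto.eventually_ge_atTop (16 / ε), eventually_ge_atTop 1]
    with n e1 e2 e3 e4
  intro A q m hq hm
  have hn0 : (0 : ℝ) < n := by exact_mod_cast e4
  have hn1 : (1 : ℝ) ≤ n := by exact_mod_cast e4
  set lam : ℝ := Real.log (n : ℝ) with hlam
  have hexp : Real.exp lam = n := Real.exp_log hn0
  have hlam0 : 0 < lam := lt_of_lt_of_le (by positivity) e1
  have hm1 : 1 ≤ m := by
    refine le_trans ?_ hm
    exact Real.one_le_rpow hn1 (by linarith)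
  have hm0 : 0 < m := by linarith
  rcases lt_or_ge (n : ℝ) m with hmn | hmn
  · have : Prob p (fun G => ∃ R, Good A q m ((2 * δ + ε) * LL p n) R G) = 0 := by
      unfold Prob
      refine Finset.sum_eq_zero fun G _ => if_neg ?_
      rintro ⟨R, -, h, -⟩
      have h2 : ((cover (A.output q G) R).card : ℝ) ≤ n := by
        have := Finset.card_le_univ (cover (A.output q G) R)
        rw [Fintype.card_fin] at this
        exact_mod_cast this
      linarith
    rw [this]
    positivity
  · set a : ℝ := (2 * δ + ε) * LL p n with ha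
    have hLL : LL p n = lam / α := LL_eq n
    have haα : a * α = (2 * δ + ε) * lam := by
      rw [ha, hLL]; field_simp
    have ha1 : 1 ≤ a := by
      rw [ha, hLL]
      rw [div_le_iff₀ hden] at e1
      rw [mul_div_assoc', le_div_iff₀ hα0]
      linarith
    set Q : ℝ := (n : ℝ) ^ (1 + δ) with hQ
    have hQe : Q = Real.exp ((1 + δ) * lam) := by
      rw [hQ, Real.rpow_def_of_pos hn0, mul_comm]
    have hnQ : (n : ℝ) ≤ Q := by
      rw [hQ]
      calc (n : ℝ) = (n : ℝ) ^ (1 : ℝ) := (Real.rpow_one _).symm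
        _ ≤ (n : ℝ) ^ (1 + δ) := Real.rpow_le_rpow_of_exponent_le hn1 (by linarith)
    have hρ1 : Real.exp (-(ε / 4 * lam)) ≤ 1 := by
      apply Real.exp_le_one_iff.2
      have : 0 ≤ ε / 4 * lam := by positivity
      linarith
    have hmain := prob_good_le h0 h1 A q (m := m) (a := a) (Q := Q)
      (ρ := Real.exp (-(ε / 4 * lam))) (by exact_mod_cast e4) ha1 hm0 (hmn.trans hnQ) hq
      (Real.exp_pos _) hρ1 (by
        have hs : Real.sqrt (1 - p) = Real.exp (-(α / 2)) := by
          rw [← heα, Real.sqrt_eq_rpow, ← Real.exp_mul]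
          congr 1
          ring
        have hz : ((1 : ℝ) / n) ^ (1 / a) = Real.exp (-κ) := by
          rw [Real.rpow_def_of_pos (by positivity), one_div, Real.log_inv, ← hlam]
          congr 1
          have ha0 : a ≠ 0 := by linarith
          have h3 : lam / a = κ := by
            rw [hκ, div_eq_div_iff ha0 hden.ne']
            linarith
          rw [← h3]
          field_simp
        have hmQ : Real.exp (-((c + δ) * lam)) ≤ m / Q := by
          rw [le_div_iff₀ (lt_of_lt_of_le hn0 hnQ), hQe, ← Real.exp_add]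
          refine le_trans (le_of_eq ?_) hm
          rw [Real.rpow_def_of_pos hn0, ← hlam]
          congr 1
          ring
        rw [hs, ← Real.exp_mul, hz]
        calc Real.exp (-(α / 2) * (a - 1))
            ≤ Real.exp (-(ε / 4 * lam)) * Real.exp (-((c + δ) * lam)) * Real.exp (-κ) := by
              rw [← Real.exp_add, ← Real.exp_add]
              apply Real.exp_le_exp.2
              have f1 : α / 2 + κ ≤ ε / 8 * lam := by
                rw [div_mul_eq_mul_div, div_le_iff₀ hε] at e2
                linarith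
              have f2 : c * lam ≤ ε / 8 * lam := mul_le_mul_of_nonneg_right hc8 hlam0.le
              linarith
          _ ≤ Real.exp (-(ε / 4 * lam)) * (m / Q) * Real.exp (-κ) := by
              gcongr)
    refine hmain.trans ?_
    rw [← Real.exp_mul, ← Real.exp_add, Real.rpow_def_of_pos hn0]
    apply Real.exp_le_exp.2
    rw [← hlam]
    have f1 : 2 * m ≤ ε / 8 * lam * m := by
      have : 2 ≤ ε / 8 * lam := by
        rw [div_le_iff₀ hε] at e3
        linarith
      exact mul_le_mul_of_nonneg_right this hm0.le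
    have f2 : c * (lam * m) ≤ ε / 8 * (lam * m) :=
      mul_le_mul_of_nonneg_right hc8 (by positivity)
    linarith

end Pool.Agent.H51Q
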