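import Pool.Agent.H51Q.Block

/-!
The upper bound: block by block with blocks of size `⌊n^δ⌋`.
-/

set_option autoImplicit false

namespace Pool.Agent.H51Q

open Finset Pool.Agent.H85.Online Pool.Agent.H72.Karp Pool.Agent.H72.KarpS Filter

variable {n : ℕ} {p : ℝ}

/-- the number of colours -/
noncomputable def numCol (f : Fin n → ℕ) : ℕ := ((Finset.univ : Finset (Fin n)).image f).card

theorem floor_tendsto {δ : ℝ} (hδ : 0 < δ) :
    Tendsto (fun n : ℕ => ⌊(n : ℝ) ^ δ⌋₊) atTop atTop :=
  tendsto_nat_floor_atTop.comp ((tendsto_rpow_atTop hδ).comp tendsto_natCast_atTop_atTop)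

theorem upper (h0 : 0 < p) (h1 : p < 1) {δ ε a : ℝ} (hδ0 : 0 < δ) (hδ1 : δ < 1) (hε : 0 < ε)
    (ha : 0 ≤ a) : ∀ᶠ n : ℕ in atTop, ∃ A : Algo n,
      (∀ G u v, G.Adj u v → A.output ⌊(n : ℝ) ^ (1 + δ)⌋₊ G u ≠
        A.output ⌊(n : ℝ) ^ (1 + δ)⌋₊ G v) ∧
      Prob p (fun G => ¬ (numCol (A.output ⌊(n : ℝ) ^ (1 + δ)⌋₊ G) : ℝ) ≤
        (1 + ε) * (n / (2 * δ * LL p n))) ≤ (n : ℝ) ^ (-a) := by
  classical
  set α : ℝ := -Real.log (1 - p) with hα
  have hα0 : 0 < α := neg_log_pos h0 h1
  set η : ℝ := min (ε / 8) (1 / 4) with hη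
  have hη0 : 0 < η := lt_min (by positivity) (by norm_num)
  have hη8 : η ≤ ε / 8 := min_le_left _ _
  have hη4 : η ≤ 1 / 4 := min_le_right _ _
  have hηη : η * η ≤ 1 / 4 * η := mul_le_mul_of_nonneg_right hη4 hη0.le
  set a' : ℝ := (a + 2) / δ with ha'
  have ha'0 : 0 ≤ a' := by positivity
  have hchi := (floor_tendsto hδ0).eventually (chi_upper (p := p) h0 h1 hη0 (a := a') ha'0)
  filter_upwards [hchi, (floor_tendsto hδ0).eventually_ge_atTop 1, eventually_ge_atTop 2,
    log_nat_tendsto.eventually_ge_atTop (Real.log 2 / (δ * η)),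
    log_nat_tendsto.eventually_ge_atTop (2 * δ / ((1 - δ) ^ 2 * (η * α))),
    log_nat_tendsto.eventually_ge_atTop (a' * Real.log 2)]
    with n e1 e2 e3 e4 e5 e6
  have hn0 : (0 : ℝ) < n := by
    exact_mod_cast (show 0 < n by omega)
  have hn1 : (1 : ℝ) < n := by
    exact_mod_cast (show 1 < n by omega)
  set lam : ℝ := Real.log (n : ℝ) with hlam
  have hexp : Real.exp lam = n := Real.exp_log hn0
  have hlam0 : 0 < lam := Real.log_pos hn1
  set m : ℕ := ⌊(n : ℝ) ^ δ⌋₊ with hm
  have hm0 : 0 < m := e2
  have hmr : (0 : ℝ) < m := by exact_mod_cast hm0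
  have hnδ : (n : ℝ) ^ δ = Real.exp (δ * lam) := by
    rw [Real.rpow_def_of_pos hn0, mul_comm]
  have hmle : (m : ℝ) ≤ (n : ℝ) ^ δ := Nat.floor_le (by positivity)
  have hmge : (n : ℝ) ^ δ / 2 ≤ m := by
    have h3 : (n : ℝ) ^ δ < m + 1 := Nat.lt_floor_add_one _
    have h4 : (1 : ℝ) ≤ m := by exact_mod_cast hm0
    linarith
  -- the algorithm
  obtain ⟨A, hA⟩ := exists_algo (n := n) (q := ⌊(n : ℝ) ^ (1 + δ)⌋₊) (by omega) (blockPairs n m)
    (by
      refine Nat.le_floor ?_
      have h3 := card_blockPairs (n := n) hm0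
      calc ((blockPairs n m).card : ℝ) ≤ n * m := by exact_mod_cast h3
        _ ≤ n * (n : ℝ) ^ δ := mul_le_mul_of_nonneg_left hmle hn0.le
        _ = (n : ℝ) ^ (1 + δ) := by rw [Real.rpow_add hn0, Real.rpow_one])
    (fun G => blockCol m G) (fun G G' h => blockCol_local hm0 h)
  refine ⟨A, fun G u v huv => ?_, ?_⟩
  · rw [hA]
    exact blockCol_proper hm0 G huv
  · simp only [hA]
    set K : ℝ := (1 / 2 + η) * (m / LL p m) with hK
    have hlogm : δ * lam * (1 - η) ≤ Real.log m := by
      have h3 : Real.log ((n : ℝ) ^ δ / 2) ≤ Real.log m :=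
        Real.log_le_log (by positivity) hmge
      rw [Real.log_div (by positivity) (by norm_num), Real.log_rpow hn0, ← hlam] at h3
      have h4 : Real.log 2 ≤ δ * lam * η := by
        rw [div_le_iff₀ (by positivity)] at e4
        linarith
      linarith
    have hlogm0 : 0 < Real.log m := lt_of_lt_of_le (by
      have : 0 < 1 - η := by linarith
      positivity) hlogm
    have hLLm : LL p m = Real.log m / α := LL_eq m
    have hLLn : LL p n = lam / α := LL_eq n
    have hcount : ∀ G : SimpleGraph (Fin n), (∀ (j : ℕ) (hj : j < n / m),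
        ((G.comap (bemb j hj)).chromaticNumber.toNat : ℝ) ≤ K) →
        (numCol (blockCol m G) : ℝ) ≤ (1 + ε) * (n / (2 * δ * LL p n)) := by
      intro G hG
      have h3 := blockCol_card hm0 G K hG
      have hV : (n : ℝ) / (2 * δ * LL p n) = n * α / (2 * δ * lam) := by
        rw [hLLn]; field_simp
      have h4 : ((n / m : ℕ) : ℝ) * K ≤ (1 / 2 + η) * (n * α / Real.log m) := by
        have h5 : ((n / m : ℕ) : ℝ) ≤ n / m := Nat.cast_div_le
        calc ((n / m : ℕ) : ℝ) * K ≤ (n / m) * K :=
              mul_le_mul_of_nonneg_right h5 (by rw [hK, hLLm]; positivity)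
          _ = (1 / 2 + η) * (n * α / Real.log m) := by
              rw [hK, hLLm]; field_simp
      have h6 : (n : ℝ) * α / Real.log m ≤ n * α / (δ * lam * (1 - η)) := by
        have : 0 < 1 - η := by linarith
        exact div_le_div_of_nonneg_left (by positivity) (by positivity) hlogm
      have h7 : (n : ℝ) * α / (δ * lam * (1 - η)) ≤ (1 + 4 / 3 * η) * (n * α / (δ * lam)) := by
        have h8 : 0 < 1 - η := by linarith
        rw [show (n : ℝ) * α / (δ * lam * (1 - η)) = (1 / (1 - η)) * (n * α / (δ * lam)) by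
          field_simp]
        refine mul_le_mul_of_nonneg_right ?_ (by positivity)
        rw [div_le_iff₀ h8]
        have h8' : (1 + 4 / 3 * η) * (1 - η) = 1 + η / 3 - 4 / 3 * (η * η) := by ring
        rw [h8']
        linarith
      have h9 : (m : ℝ) ≤ η * (n * α / (δ * lam)) := by
        refine hmle.trans ?_
        rw [hnδ, ← hexp]
        set t : ℝ := 1 - δ with ht
        have ht0 : 0 < t := by linarith
        have h10 : (t * lam) ^ 2 / 2 ≤ Real.exp (t * lam) := by
          have := Real.quadratic_le_exp_of_nonneg (show 0 ≤ t * lam by positivity)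
          have h11 : 0 ≤ t * lam := by positivity
          linarith
        have h12 : Real.exp lam = Real.exp (δ * lam) * Real.exp (t * lam) := by
          rw [← Real.exp_add]
          congr 1
          rw [ht]
          ring
        have h13 : 1 ≤ η * (Real.exp (t * lam) * α / (δ * lam)) := by
          rw [mul_div_assoc', one_le_div (by positivity)]
          rw [div_le_iff₀ (by positivity)] at e5
          calc δ * lam = (2 * δ) * (lam / 2) := by ring
            _ ≤ (lam * (t ^ 2 * (η * α))) * (lam / 2) :=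
                mul_le_mul_of_nonneg_right e5 (by positivity)
            _ = η * ((t * lam) ^ 2 / 2 * α) := by ring
            _ ≤ η * (Real.exp (t * lam) * α) := by gcongr
        calc Real.exp (δ * lam) = Real.exp (δ * lam) * 1 := (mul_one _).symm
          _ ≤ Real.exp (δ * lam) * (η * (Real.exp (t * lam) * α / (δ * lam))) :=
              mul_le_mul_of_nonneg_left h13 (Real.exp_pos _).le
          _ = η * (Real.exp lam * α / (δ * lam)) := by rw [h12]; ring
      set V : ℝ := n * α / (δ * lam) with hVV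
      have hV0 : 0 ≤ V := by positivity
      have h14 : (1 / 2 + η) * (n * α / Real.log m) ≤ (1 / 2 + η) * ((1 + 4 / 3 * η) * V) :=
        mul_le_mul_of_nonneg_left (h6.trans h7) (by positivity)
      have h15 : (1 / 2 + η) * ((1 + 4 / 3 * η) * V) + η * V ≤ (1 + ε) * (V / 2) := by
        have h16 : (1 / 2 + η) * (1 + 4 / 3 * η) + η ≤ (1 + ε) / 2 := by
          have h16' : (1 / 2 + η) * (1 + 4 / 3 * η) + η = 1 / 2 + 8 / 3 * η + 4 / 3 * (η * η) := by
            ring
          rw [h16']
          linarith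
        calc (1 / 2 + η) * ((1 + 4 / 3 * η) * V) + η * V
            = ((1 / 2 + η) * (1 + 4 / 3 * η) + η) * V := by ring
          _ ≤ (1 + ε) / 2 * V := mul_le_mul_of_nonneg_right h16 hV0
          _ = (1 + ε) * (V / 2) := by ring
      have h17 : (n : ℝ) / (2 * δ * LL p n) = V / 2 := by
        rw [hV, hVV]; field_simp
      rw [h17]
      unfold numCol
      linarith
    calc Prob p (fun G => ¬ (numCol (blockCol m G) : ℝ) ≤ (1 + ε) * (n / (2 * δ * LL p n)))
        ≤ Prob p (fun G : SimpleGraph (Fin n) => ∃ j ∈ (Finset.range (n / m)).attach,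
          ¬ ((G.comap (bemb j.1 (Finset.mem_range.1 j.2))).chromaticNumber.toNat : ℝ) ≤ K) := by
          refine Prob_mono h0 h1 fun G hG => ?_
          by_contra hcon
          push Not at hcon
          exact hG (hcount G fun j hj => hcon ⟨j, Finset.mem_range.2 hj⟩ (Finset.mem_attach _ _))
      _ ≤ ∑ j ∈ (Finset.range (n / m)).attach, Prob p (fun G : SimpleGraph (Fin n) =>
          ¬ ((G.comap (bemb j.1 (Finset.mem_range.1 j.2))).chromaticNumber.toNat : ℝ) ≤ K) :=
          Prob_exists h0 h1 _ _
      _ ≤ ∑ _j ∈ (Finset.range (n / m)).attach, (m : ℝ) ^ (-a') := by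
          refine Finset.sum_le_sum fun j _ => ?_
          rw [Prob_comap h0 h1 (bemb j.1 (Finset.mem_range.1 j.2))
            (fun H => ¬ (H.chromaticNumber.toNat : ℝ) ≤ K)]
          exact e1
      _ = (n / m : ℕ) * (m : ℝ) ^ (-a') := by
          rw [Finset.sum_const, Finset.card_attach, Finset.card_range, nsmul_eq_mul]
      _ ≤ n * Real.exp (-(a' * (δ * lam - Real.log 2))) := by
          have h3 : ((n / m : ℕ) : ℝ) ≤ n := by exact_mod_cast Nat.div_le_self _ _
          refine mul_le_mul h3 ?_ (by positivity) hn0.le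
          rw [Real.rpow_def_of_pos hmr]
          apply Real.exp_le_exp.2
          have h4 : δ * lam - Real.log 2 ≤ Real.log m := by
            have h3 : Real.log ((n : ℝ) ^ δ / 2) ≤ Real.log m :=
              Real.log_le_log (by positivity) hmge
            rw [Real.log_div (by positivity) (by norm_num), Real.log_rpow hn0, ← hlam] at h3
            exact h3
          have h5 := mul_le_mul_of_nonneg_left h4 ha'0
          linarith
      _ ≤ (n : ℝ) ^ (-a) := by
          rw [Real.rpow_def_of_pos hn0, ← hlam]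
          nth_rewrite 1 [← hexp]
          rw [← Real.exp_add]
          apply Real.exp_le_exp.2
          have h3 : a' * (δ * lam) = (a + 2) * lam := by
            rw [ha']; field_simp
          have h4 : a' * (δ * lam - Real.log 2) = (a + 2) * lam - a' * Real.log 2 := by
            rw [mul_sub, h3]
          rw [h4]
          linarith

end Pool.Agent.H51Q
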