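import Pool.Agent.H51Q.Lower
import Pool.Agent.H51Q.Upper

/-!
The two bounds in terms of the ratio.
-/

set_option autoImplicit false

namespace Pool.Agent.H51Q

open Finset Pool.Agent.H85.Online Pool.Agent.H72.Karp Pool.Agent.H72.KarpS Filter

variable {n : ℕ} {p : ℝ}

/-- the colouring `f` is proper for `G` -/
def Proper (G : SimpleGraph (Fin n)) (f : Fin n → ℕ) : Prop := ∀ u v, G.Adj u v → f u ≠ f v

theorem exists_repr (f : Fin n → ℕ) : ∃ R : Finset (Fin n), R.card ≤ numCol f ∧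
    cover f R = Finset.univ := by
  classical
  have hch : ∀ c : {x // x ∈ (Finset.univ : Finset (Fin n)).image f}, ∃ v : Fin n, f v = c.1 := by
    rintro ⟨c, hc⟩
    obtain ⟨v, -, hv⟩ := Finset.mem_image.1 hc
    exact ⟨v, hv⟩
  choose g hg using hch
  refine ⟨((Finset.univ : Finset (Fin n)).image f).attach.image g, ?_, ?_⟩
  · refine Finset.card_image_le.trans ?_
    rw [Finset.card_attach]
    exact le_rfl
  · ext v
    rw [cover, Finset.mem_filter]
    refine ⟨fun _ => Finset.mem_univ _, fun _ => ⟨Finset.mem_univ _, ?_⟩⟩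
    refine ⟨g ⟨f v, Finset.mem_image_of_mem _ (Finset.mem_univ v)⟩,
      Finset.mem_image_of_mem _ (Finset.mem_attach _ _), hg _⟩

theorem good_of_few {A : Algo n} {q : ℕ} {a : ℝ} {G : SimpleGraph (Fin n)} (ha : 0 ≤ a)
    (hp : Proper G (A.output q G)) (h : a * numCol (A.output q G) ≤ n) :
    ∃ R, Good A q n a R G := by
  obtain ⟨R, hR, hcov⟩ := exists_repr (A.output q G)
  refine ⟨R, fun u v huv hadj => hp u v hadj huv.1, ?_, ?_⟩
  · rw [hcov, Finset.card_univ, Fintype.card_fin]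
  · rw [hcov, Finset.card_univ, Fintype.card_fin]
    refine le_trans ?_ h
    exact mul_le_mul_of_nonneg_left (by exact_mod_cast hR) ha

theorem lower_family (h0 : 0 < p) (h1 : p < 1) {δ ε : ℝ} (hδ : 0 ≤ δ) (hε : 0 < ε) :
    ∃ c : ℝ, 0 < c ∧ ∀ᶠ n : ℕ in atTop, ∀ (N q : ℕ) (A : Fin N → Algo n) (m : ℝ),
      (q : ℝ) ≤ (n : ℝ) ^ (1 + δ) → (n : ℝ) ^ (1 - c) ≤ m →
      Prob p (fun G => ∃ i, ∃ R, Good (A i) q m ((2 * δ + ε) * LL p n) R G) ≤
        N * (n : ℝ) ^ (-(c * m)) := by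
  obtain ⟨c, hc, h⟩ := lower h0 h1 hδ hε
  refine ⟨c, hc, ?_⟩
  filter_upwards [h] with n hn N q A m hq hm
  calc Prob p (fun G => ∃ i, ∃ R, Good (A i) q m ((2 * δ + ε) * LL p n) R G)
      ≤ Prob p (fun G => ∃ i ∈ (Finset.univ : Finset (Fin N)),
          ∃ R, Good (A i) q m ((2 * δ + ε) * LL p n) R G) :=
        Prob_mono h0 h1 fun G ⟨i, h⟩ => ⟨i, Finset.mem_univ _, h⟩
    _ ≤ ∑ i : Fin N, Prob p (fun G => ∃ R, Good (A i) q m ((2 * δ + ε) * LL p n) R G) :=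
        Prob_exists h0 h1 _ _
    _ ≤ ∑ _i : Fin N, (n : ℝ) ^ (-(c * m)) :=
        Finset.sum_le_sum fun i _ => hn (A i) q m hq hm
    _ = N * (n : ℝ) ^ (-(c * m)) := by
        rw [Finset.sum_const, Finset.card_univ, Fintype.card_fin, nsmul_eq_mul]

theorem ratio_lower (h0 : 0 < p) (h1 : p < 1) {δ r : ℝ} (hδ : 0 ≤ δ) (hr : 0 ≤ r)
    (hδr : δ * r < 1) :
    ∃ c : ℝ, 0 < c ∧ ∀ a : ℝ, 0 ≤ a → ∀ᶠ n : ℕ in atTop, ∀ (N q : ℕ) (A : Fin N → Algo n),
      (q : ℝ) ≤ (n : ℝ) ^ (1 + δ) →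
      Prob p (fun G => ∃ i, Proper G ((A i).output q G) ∧
        (numCol ((A i).output q G) : ℝ) ≤ r * G.chromaticNumber.toNat) ≤
        N * (n : ℝ) ^ (-(c * n)) + (n : ℝ) ^ (-a) := by
  set ε : ℝ := min 1 ((1 - δ * r) / (r * (3 / 2 + 2 * δ) + 1)) with hε
  have hden : 0 < r * (3 / 2 + 2 * δ) + 1 := by positivity
  have hε0 : 0 < ε := lt_min one_pos (div_pos (by linarith) hden)
  have hε1 : ε ≤ 1 := min_le_left _ _
  have hε2 : ε * (r * (3 / 2 + 2 * δ) + 1) ≤ 1 - δ * r := by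
    rw [← le_div_iff₀ hden]
    exact min_le_right _ _
  have hkey : r * (1 / 2 + ε) * (2 * δ + ε) ≤ 1 := by
    have e1 : r * (1 / 2 + ε) * (2 * δ + ε) = δ * r + r * (ε / 2 + 2 * δ * ε + ε * ε) := by ring
    have e2 : ε * ε ≤ 1 * ε := mul_le_mul_of_nonneg_right hε1 hε0.le
    have e3 : r * (ε / 2 + 2 * δ * ε + ε * ε) ≤ r * (ε / 2 + 2 * δ * ε + 1 * ε) :=
      mul_le_mul_of_nonneg_left (by linarith) hr
    have e4 : r * (ε / 2 + 2 * δ * ε + 1 * ε) = ε * (r * (3 / 2 + 2 * δ)) := by ring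
    have e5 : ε * (r * (3 / 2 + 2 * δ) + 1) = ε * (r * (3 / 2 + 2 * δ)) + ε := by ring
    linarith
  obtain ⟨c, hc, hlow⟩ := lower_family h0 h1 hδ hε0
  refine ⟨c, hc, fun a ha => ?_⟩
  filter_upwards [hlow, chi_upper (p := p) h0 h1 hε0 ha, eventually_ge_atTop 2]
    with n e1 e2 e3
  intro N q A hq
  have hn1 : (1 : ℝ) ≤ n := by
    exact_mod_cast (show 1 ≤ n by omega)
  have hn1' : (1 : ℝ) < n := by
    exact_mod_cast (show 1 < n by omega)
  have hα0 : 0 < -Real.log (1 - p) := neg_log_pos h0 h1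
  have hLL : 0 < LL p n := by
    rw [LL_eq]
    exact div_pos (Real.log_pos hn1') hα0
  have hm : (n : ℝ) ^ (1 - c) ≤ n := by
    calc (n : ℝ) ^ (1 - c) ≤ (n : ℝ) ^ (1 : ℝ) :=
          Real.rpow_le_rpow_of_exponent_le hn1 (by linarith)
      _ = n := Real.rpow_one _
  have h3 := e1 N q A n hq hm
  calc Prob p (fun G => ∃ i, Proper G ((A i).output q G) ∧
        (numCol ((A i).output q G) : ℝ) ≤ r * G.chromaticNumber.toNat)
      ≤ Prob p (fun G => (∃ i, ∃ R, Good (A i) q n ((2 * δ + ε) * LL p n) R G) ∨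
          ¬ (G.chromaticNumber.toNat : ℝ) ≤ (1 / 2 + ε) * (n / LL p n)) := by
        refine Prob_mono h0 h1 ?_
        rintro G ⟨i, hprop, hcol⟩
        by_cases hchi : (G.chromaticNumber.toNat : ℝ) ≤ (1 / 2 + ε) * (n / LL p n)
        · left
          refine ⟨i, good_of_few (by positivity) hprop ?_⟩
          have h4 : (numCol ((A i).output q G) : ℝ) ≤ r * ((1 / 2 + ε) * (n / LL p n)) :=
            hcol.trans (mul_le_mul_of_nonneg_left hchi hr)
          calc (2 * δ + ε) * LL p n * (numCol ((A i).output q G) : ℝ)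
              ≤ (2 * δ + ε) * LL p n * (r * ((1 / 2 + ε) * (n / LL p n))) :=
                mul_le_mul_of_nonneg_left h4 (by positivity)
            _ = (r * (1 / 2 + ε) * (2 * δ + ε)) * n := by field_simp
            _ ≤ 1 * n := mul_le_mul_of_nonneg_right hkey (by linarith)
            _ = n := one_mul _
        · exact Or.inr hchi
    _ ≤ _ := (Prob_or h0 h1 _ _).trans (add_le_add h3 e2)

theorem ratio_upper (h0 : 0 < p) (h1 : p < 1) {δ r a : ℝ} (hδ0 : 0 < δ) (hδ1 : δ < 1)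
    (hδr : 1 < δ * r) (ha : 0 ≤ a) :
    ∀ᶠ n : ℕ in atTop, ∃ A : Algo n,
      (∀ G, Proper G (A.output ⌊(n : ℝ) ^ (1 + δ)⌋₊ G)) ∧
      Prob p (fun G => ¬ (numCol (A.output ⌊(n : ℝ) ^ (1 + δ)⌋₊ G) : ℝ) ≤
        r * G.chromaticNumber.toNat) ≤ (n : ℝ) ^ (-a) := by
  set ε : ℝ := min 1 ((δ * r - 1) / 2) with hε
  have hε0 : 0 < ε := lt_min one_pos (by linarith)
  have hε1 : ε ≤ 1 := min_le_left _ _
  have hε2 : ε ≤ (δ * r - 1) / 2 := min_le_right _ _
  have hr0 : 0 < r := by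
    by_contra h
    push Not at h
    have := mul_nonpos_of_nonneg_of_nonpos hδ0.le h
    linarith
  have hkey : (1 + ε) * (2 + ε) ≤ 2 * (δ * r) := by
    have e1 : (1 + ε) * (2 + ε) = 2 + 3 * ε + ε * ε := by ring
    have e2 : ε * ε ≤ 1 * ε := mul_le_mul_of_nonneg_right hε1 hε0.le
    linarith
  filter_upwards [upper h0 h1 hδ0 hδ1 hε0 (a := a + 1) (by linarith),
    alpha_bound' (p := p) h0 h1 hε0 (a + 1), eventually_ge_atTop 2] with n e1 e2 e3
  obtain ⟨A, hprop, hA⟩ := e1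
  refine ⟨A, fun G u v huv => hprop G u v huv, ?_⟩
  have hn0 : (0 : ℝ) < n := by
    exact_mod_cast (show 0 < n by omega)
  have hn1' : (1 : ℝ) < n := by
    exact_mod_cast (show 1 < n by omega)
  have hn2 : (2 : ℝ) ≤ n := by exact_mod_cast e3
  have hα0 : 0 < -Real.log (1 - p) := neg_log_pos h0 h1
  have hLL : 0 < LL p n := by
    rw [LL_eq]
    exact div_pos (Real.log_pos hn1') hα0
  calc Prob p (fun G => ¬ (numCol (A.output ⌊(n : ℝ) ^ (1 + δ)⌋₊ G) : ℝ) ≤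
        r * G.chromaticNumber.toNat)
      ≤ Prob p (fun G => (¬ (numCol (A.output ⌊(n : ℝ) ^ (1 + δ)⌋₊ G) : ℝ) ≤
          (1 + ε) * (n / (2 * δ * LL p n))) ∨
          ¬ ∀ I : Finset (Fin n), Indep G I → (I.card : ℝ) ≤ (2 + ε) * LL p n) := by
        refine Prob_mono h0 h1 fun G hG => ?_
        by_contra hcon
        push Not at hcon
        obtain ⟨h3, h4⟩ := hcon
        apply hG
        have h5 := le_chi_mul G h4
        refine h3.trans ?_
        rw [mul_div_assoc', div_le_iff₀ (by positivity)]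
        calc (1 + ε) * (n : ℝ)
            ≤ (1 + ε) * ((G.chromaticNumber.toNat : ℝ) * ((2 + ε) * LL p n)) :=
              mul_le_mul_of_nonneg_left h5 (by positivity)
          _ = ((1 + ε) * (2 + ε)) * ((G.chromaticNumber.toNat : ℝ) * LL p n) := by ring
          _ ≤ (2 * (δ * r)) * ((G.chromaticNumber.toNat : ℝ) * LL p n) :=
              mul_le_mul_of_nonneg_right hkey (by positivity)
          _ = r * (G.chromaticNumber.toNat : ℝ) * (2 * δ * LL p n) := by ring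
    _ ≤ (n : ℝ) ^ (-(a + 1)) + (n : ℝ) ^ (-(a + 1)) :=
        (Prob_or h0 h1 _ _).trans (add_le_add hA e2)
    _ ≤ (n : ℝ) ^ (-a) := by
        have h3 : (n : ℝ) ^ (-a) = (n : ℝ) ^ (-(a + 1)) * n := by
          rw [show -a = -(a + 1) + 1 by ring, Real.rpow_add hn0, Real.rpow_one]
        rw [h3]
        have h4 : 0 ≤ (n : ℝ) ^ (-(a + 1)) := by positivity
        have h5 := mul_le_mul_of_nonneg_left hn2 h4
        linarith

end Pool.Agent.H51Q
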