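import Pool.Agent.H85.Online.Prob

/-!
Algorithms which ask adjacency questions: definitions and the simulation argument.

The final partition of the vertices is built up from the questions whose two ends lie in one
(selected) class and were not known before to lie in one class: these are the merging times. If the
set of merging times is given, the run of the algorithm can be simulated on every graph which
differs from the true one only inside the classes.
-/

set_option autoImplicit false

namespace Pool.Agent.H51Q

open Finset Pool.Agent.H85.Online

/-- A deterministic adaptive algorithm which asks questions (is `{u, v}` an edge?) about a graph on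
`n` vertices. `ask a` is the next question if the list of the answers so far is `a`; `col a` is the
final output, an assignment of colours (natural numbers) to the vertices, if the list of all
answers is `a`. There is no bound on the computations. -/
structure Algo (n : ℕ) where
  /-- the next question -/
  ask : List Bool → Fin n × Fin n
  /-- the output -/
  col : List Bool → Fin n → ℕ

variable {n : ℕ}

open Classical in
/-- the list of the first `t` answers on the graph `G` -/
noncomputable def Algo.answers (A : Algo n) (G : SimpleGraph (Fin n)) : ℕ → List Bool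
  | 0 => []
  | t + 1 => A.answers G t ++
      [decide (G.Adj (A.ask (A.answers G t)).1 (A.ask (A.answers G t)).2)]

/-- the output of the algorithm on the graph `G` after `q` questions -/
noncomputable def Algo.output (A : Algo n) (q : ℕ) (G : SimpleGraph (Fin n)) : Fin n → ℕ :=
  A.col (A.answers G q)

/-- the vertices in the classes of the vertices in `R` -/
noncomputable def cover (f : Fin n → ℕ) (R : Finset (Fin n)) : Finset (Fin n) :=
  Finset.univ.filter fun v => ∃ r ∈ R, f r = f v

/-- `u` and `v` lie in one of the classes of the vertices in `R` -/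
def Int (f : Fin n → ℕ) (R : Finset (Fin n)) (u v : Fin n) : Prop :=
  f u = f v ∧ ∃ r ∈ R, f r = f u

theorem Int.symm {f : Fin n → ℕ} {R : Finset (Fin n)} {u v : Fin n} (h : Int f R u v) :
    Int f R v u := by
  obtain ⟨h1, r, hr, h2⟩ := h
  exact ⟨h1.symm, r, hr, h2.trans h1⟩

theorem Int.trans {f : Fin n → ℕ} {R : Finset (Fin n)} {u v w : Fin n} (h : Int f R u v)
    (h' : Int f R v w) : Int f R u w :=
  ⟨h.1.trans h'.1, h.2⟩

theorem Int.mem_left {f : Fin n → ℕ} {R : Finset (Fin n)} {u v : Fin n} (h : Int f R u v) :
    u ∈ cover f R := by
  obtain ⟨h1, r, hr, h2⟩ := h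
  exact Finset.mem_filter.2 ⟨Finset.mem_univ _, r, hr, h2⟩

/-- merging the label classes of `u` and `v` -/
def mrg (l : Fin n → Fin n) (u v : Fin n) (w : Fin n) : Fin n := if l w = l v then l u else l w

/-- equal or internal -/
def Same (f : Fin n → ℕ) (R : Finset (Fin n)) (u v : Fin n) : Prop := u = v ∨ Int f R u v

theorem Same.symm {f : Fin n → ℕ} {R : Finset (Fin n)} {u v : Fin n} (h : Same f R u v) :
    Same f R v u := by
  rcases h with h | h
  · exact Or.inl h.symm
  · exact Or.inr h.symm

theorem Same.trans {f : Fin n → ℕ} {R : Finset (Fin n)} {u v w : Fin n} (h : Same f R u v)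
    (h' : Same f R v w) : Same f R u w := by
  rcases h with rfl | h
  · exact h'
  · rcases h' with rfl | h'
    · exact Or.inr h
    · exact Or.inr (h.trans h')

open Classical in
/-- the labels in the true run -/
noncomputable def lab (A : Algo n) (G : SimpleGraph (Fin n)) (f : Fin n → ℕ)
    (R : Finset (Fin n)) : ℕ → Fin n → Fin n
  | 0 => id
  | t + 1 =>
    if Int f R (A.ask (A.answers G t)).1 (A.ask (A.answers G t)).2 ∧
        lab A G f R t (A.ask (A.answers G t)).1 ≠ lab A G f R t (A.ask (A.answers G t)).2 then
      mrg (lab A G f R t) (A.ask (A.answers G t)).1 (A.ask (A.answers G t)).2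
    else lab A G f R t

/-- time `t` is merging in the true run -/
def Merging (A : Algo n) (G : SimpleGraph (Fin n)) (f : Fin n → ℕ) (R : Finset (Fin n))
    (t : ℕ) : Prop :=
  Int f R (A.ask (A.answers G t)).1 (A.ask (A.answers G t)).2 ∧
    lab A G f R t (A.ask (A.answers G t)).1 ≠ lab A G f R t (A.ask (A.answers G t)).2

open Classical in
/-- the set of merging times below `q` -/
noncomputable def times (A : Algo n) (G : SimpleGraph (Fin n)) (f : Fin n → ℕ)
    (R : Finset (Fin n)) (q : ℕ) : Finset ℕ :=
  (Finset.range q).filter fun t => Merging A G f R t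

theorem lab_succ_pos {A : Algo n} {G : SimpleGraph (Fin n)} {f : Fin n → ℕ}
    {R : Finset (Fin n)} {t : ℕ} (h : Merging A G f R t) :
    lab A G f R (t + 1) =
      mrg (lab A G f R t) (A.ask (A.answers G t)).1 (A.ask (A.answers G t)).2 := by
  rw [lab]
  exact if_pos h

theorem lab_succ_neg {A : Algo n} {G : SimpleGraph (Fin n)} {f : Fin n → ℕ}
    {R : Finset (Fin n)} {t : ℕ} (h : ¬ Merging A G f R t) :
    lab A G f R (t + 1) = lab A G f R t := by
  rw [lab]
  exact if_neg h

/-- vertices with the same label lie in the same class -/
theorem same_of_lab {A : Algo n} {G : SimpleGraph (Fin n)} {f : Fin n → ℕ}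
    {R : Finset (Fin n)} (t : ℕ) : ∀ w w' : Fin n, lab A G f R t w = lab A G f R t w' →
      Same f R w w' := by
  induction t with
  | zero =>
    intro w w' h
    exact Or.inl h
  | succ t ih =>
    intro w w' h
    by_cases hm : Merging A G f R t
    · rw [lab_succ_pos hm] at h
      have hint : Same f R (A.ask (A.answers G t)).1 (A.ask (A.answers G t)).2 := Or.inr hm.1
      unfold mrg at h
      split_ifs at h with h1 h2 h2
      · exact (ih _ _ h1).trans (ih _ _ h2).symm
      · exact ((ih _ _ h1).trans hint.symm).trans (ih _ _ h)
      · exact ((ih _ _ h).trans hint).trans (ih _ _ h2).symm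
      · exact ih _ _ h
    · rw [lab_succ_neg hm] at h
      exact ih _ _ h

open Classical in
/-- the simulated run: the list of answers and the labels -/
noncomputable def sim (A : Algo n) (T : Finset ℕ) (H : SimpleGraph (Fin n)) :
    ℕ → List Bool × (Fin n → Fin n)
  | 0 => ([], id)
  | t + 1 =>
    ((sim A T H t).1 ++ [if t ∈ T ∨ (sim A T H t).2 (A.ask (sim A T H t).1).1 =
          (sim A T H t).2 (A.ask (sim A T H t).1).2 then false
        else decide (H.Adj (A.ask (sim A T H t).1).1 (A.ask (sim A T H t).1).2)],
      if t ∈ T then mrg (sim A T H t).2 (A.ask (sim A T H t).1).1 (A.ask (sim A T H t).1).2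
      else (sim A T H t).2)

/-- the answer at time `t` of the simulated run is forced -/
def Forced (A : Algo n) (T : Finset ℕ) (H : SimpleGraph (Fin n)) (t : ℕ) : Prop :=
  t ∈ T ∨ (sim A T H t).2 (A.ask (sim A T H t).1).1 = (sim A T H t).2 (A.ask (sim A T H t).1).2

open Classical in
theorem sim_succ (A : Algo n) (T : Finset ℕ) (H : SimpleGraph (Fin n)) (t : ℕ) :
    sim A T H (t + 1) =
    ((sim A T H t).1 ++ [if t ∈ T ∨ (sim A T H t).2 (A.ask (sim A T H t).1).1 =
          (sim A T H t).2 (A.ask (sim A T H t).1).2 then false
        else decide (H.Adj (A.ask (sim A T H t).1).1 (A.ask (sim A T H t).1).2)],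
      if t ∈ T then mrg (sim A T H t).2 (A.ask (sim A T H t).1).1 (A.ask (sim A T H t).1).2
      else (sim A T H t).2) := by
  rw [sim]

/-- The simulation reproduces the true run. -/
theorem sim_eq {A : Algo n} {G H : SimpleGraph (Fin n)} {f : Fin n → ℕ} {R : Finset (Fin n)}
    {q : ℕ} (hind : ∀ u v, Int f R u v → ¬ G.Adj u v)
    (hH : ∀ u v, ¬ Int f R u v → (H.Adj u v ↔ G.Adj u v)) (t : ℕ) (ht : t ≤ q) :
    sim A (times A G f R q) H t = (A.answers G t, lab A G f R t) := by
  classical
  induction t with
  | zero => rfl
  | succ t ih =>
    have ih' := ih (by omega)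
    have hmem : t ∈ times A G f R q ↔ Merging A G f R t := by
      rw [times, Finset.mem_filter, Finset.mem_range]
      exact ⟨fun h => h.2, fun h => ⟨by omega, h⟩⟩
    rw [sim_succ, ih']
    simp only [hmem]
    rw [Algo.answers]
    refine Prod.ext ?_ ?_
    · simp only
      congr 2
      by_cases hint : Int f R (A.ask (A.answers G t)).1 (A.ask (A.answers G t)).2
      · have hna := hind _ _ hint
        have hforced : Merging A G f R t ∨ lab A G f R t (A.ask (A.answers G t)).1
            = lab A G f R t (A.ask (A.answers G t)).2 := by
          by_cases hl : lab A G f R t (A.ask (A.answers G t)).1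
            = lab A G f R t (A.ask (A.answers G t)).2
          · exact Or.inr hl
          · exact Or.inl ⟨hint, hl⟩
        rw [if_pos hforced]
        exact (decide_eq_false hna).symm
      · by_cases heq : (A.ask (A.answers G t)).1 = (A.ask (A.answers G t)).2
        · rw [if_pos (Or.inr (by rw [heq]))]
          rw [heq]
          exact (decide_eq_false (G.irrefl)).symm
        · rw [if_neg]
          · exact decide_eq_decide.2 (hH _ _ hint)
          · rintro (h | h)
            · exact hint h.1
            · rcases same_of_lab t _ _ h with h | h
              · exact heq h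
              · exact hint h
    · simp only
      by_cases hm : Merging A G f R t
      · rw [if_pos hm, lab_succ_pos hm]
      · rw [if_neg hm, lab_succ_neg hm]

/-- in the simulated run of a good graph the answers which are not forced are about pairs outside
the classes -/
theorem external_of {A : Algo n} {G H : SimpleGraph (Fin n)} {f : Fin n → ℕ}
    {R : Finset (Fin n)} {q : ℕ} (hind : ∀ u v, Int f R u v → ¬ G.Adj u v)
    (hH : ∀ u v, ¬ Int f R u v → (H.Adj u v ↔ G.Adj u v)) (t : ℕ) (ht : t < q)
    (hf : ¬ Forced A (times A G f R q) H t) :
    ¬ Int f R (A.ask (sim A (times A G f R q) H t).1).1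
      (A.ask (sim A (times A G f R q) H t).1).2 := by
  classical
  intro hint
  apply hf
  unfold Forced
  rw [sim_eq hind hH t ht.le] at hint ⊢
  simp only at hint ⊢
  by_cases hl : lab A G f R t (A.ask (A.answers G t)).1
      = lab A G f R t (A.ask (A.answers G t)).2
  · exact Or.inr hl
  · left
    rw [times, Finset.mem_filter, Finset.mem_range]
    exact ⟨ht, hint, hl⟩

/-- The simulated run depends only on the pairs outside the classes, if the answers which are not
forced are about such pairs. -/
theorem sim_congr {A : Algo n} {T : Finset ℕ} {H H' : SimpleGraph (Fin n)} {f : Fin n → ℕ}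
    {R : Finset (Fin n)} {q : ℕ}
    (hH : ∀ u v, ¬ Int f R u v → (H.Adj u v ↔ H'.Adj u v))
    (hext : ∀ t < q, ¬ Forced A T H t →
      ¬ Int f R (A.ask (sim A T H t).1).1 (A.ask (sim A T H t).1).2)
    (t : ℕ) (ht : t ≤ q) : sim A T H' t = sim A T H t := by
  classical
  induction t with
  | zero => rfl
  | succ t ih =>
    have ih' := ih (by omega)
    rw [sim_succ, sim_succ A T H, ih']
    refine Prod.ext ?_ rfl
    simp only
    congr 2
    by_cases hf : t ∈ T ∨ (sim A T H t).2 (A.ask (sim A T H t).1).1 =
          (sim A T H t).2 (A.ask (sim A T H t).1).2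
    · rw [if_pos hf, if_pos hf]
    · rw [if_neg hf, if_neg hf]
      exact decide_eq_decide.2 (hH _ _ (hext t (by omega) hf)).symm

/-- The number of merging times. -/
theorem card_times_le (A : Algo n) (G : SimpleGraph (Fin n)) (f : Fin n → ℕ)
    (R : Finset (Fin n)) (q : ℕ) : (times A G f R q).card ≤ (cover f R).card := by
  classical
  have key : ∀ t : ℕ, (times A G f R t).card + ((cover f R).image (lab A G f R t)).card
      ≤ (cover f R).card := by
    intro t
    induction t with
    | zero =>
      have h1 : times A G f R 0 = ∅ := by
        rw [times, Finset.range_zero, Finset.filter_empty]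
      rw [h1, Finset.card_empty, zero_add]
      exact Finset.card_image_le
    | succ t ih =>
      have hts : times A G f R (t + 1) = if Merging A G f R t then insert t (times A G f R t)
          else times A G f R t := by
        rw [times, Finset.range_add_one, Finset.filter_insert]
        rfl
      by_cases hm : Merging A G f R t
      · rw [hts, if_pos hm, Finset.card_insert_of_notMem (by
          rw [times, Finset.mem_filter, Finset.mem_range]
          intro h
          exact absurd h.1 (lt_irrefl _)), lab_succ_pos hm]
        have hu := hm.1.mem_left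
        have hv := hm.1.symm.mem_left
        have hsub : (cover f R).image (mrg (lab A G f R t) (A.ask (A.answers G t)).1
            (A.ask (A.answers G t)).2) ⊆
            ((cover f R).image (lab A G f R t)).erase
              (lab A G f R t (A.ask (A.answers G t)).2) := by
          intro x hx
          obtain ⟨w, hw, rfl⟩ := Finset.mem_image.1 hx
          unfold mrg
          split_ifs with h
          · exact Finset.mem_erase.2 ⟨hm.2, Finset.mem_image_of_mem _ hu⟩
          · exact Finset.mem_erase.2 ⟨h, Finset.mem_image_of_mem _ hw⟩
        have h1 := Finset.card_le_card hsub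
        rw [Finset.card_erase_of_mem (Finset.mem_image_of_mem _ hv)] at h1
        have h2 : 0 < ((cover f R).image (lab A G f R t)).card :=
          Finset.card_pos.2 ⟨_, Finset.mem_image_of_mem _ hv⟩
        omega
      · rw [hts, if_neg hm, lab_succ_neg hm]
        exact ih
  have := key q
  omega

end Pool.Agent.H51Q
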