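import Pool.Agent.H51Q.Bound

/-!
The union bound over the sets of merging times and over the selected classes.
-/

set_option autoImplicit false

namespace Pool.Agent.H51Q

open Finset Pool.Agent.H85.Online

variable {n : ℕ} {p : ℝ}

theorem sum_powerset_pow {ι : Type} (s : Finset ι) (x : ℝ) :
    ∑ t ∈ s.powerset, x ^ t.card = (1 + x) ^ s.card := by
  classical
  have h := Finset.sum_pow_mul_eq_add_pow x 1 s
  rw [add_comm, ← h]
  exact Finset.sum_congr rfl fun t _ => by rw [one_pow, mul_one]

theorem prob_good_le (h0 : 0 < p) (h1 : p < 1) (A : Algo n) (q : ℕ) {m a Q ρ : ℝ} (hn : 0 < n)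
    (ha : 1 ≤ a) (hm : 0 < m) (hmQ : m ≤ Q) (hq : (q : ℝ) ≤ Q) (hρ0 : 0 < ρ) (hρ1 : ρ ≤ 1)
    (hρ : Real.sqrt (1 - p) ^ (a - 1) ≤ ρ * (m / Q) * ((1 : ℝ) / n) ^ (1 / a)) :
    Prob p (fun G => ∃ R, Good A q m a R G) ≤ Real.exp (m + 1) * ρ ^ m := by
  classical
  set r : ℝ := Real.sqrt (1 - p) with hr
  have hr0 : 0 < r := Real.sqrt_pos.2 (by linarith)
  have hQ : 0 < Q := lt_of_lt_of_le hm hmQ
  set x : ℝ := m / Q with hx
  have hx0 : 0 < x := div_pos hm hQ
  have hx1 : x ≤ 1 := (div_le_one hQ).2 hmQ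
  have hnr : (0 : ℝ) < n := by exact_mod_cast hn
  have hn1 : (1 : ℝ) ≤ n := by exact_mod_cast hn
  set z : ℝ := ((1 : ℝ) / n) ^ (1 / a) with hz
  have hn0 : (0 : ℝ) < 1 / n := by positivity
  have hz0 : 0 < z := Real.rpow_pos_of_pos hn0 _
  have hz1 : z ≤ 1 := Real.rpow_le_one hn0.le ((div_le_one hnr).2 hn1) (by positivity)
  have hza : ∀ k : ℕ, z ^ (a * k) = ((1 : ℝ) / n) ^ k := by
    intro k
    rw [hz, ← Real.rpow_mul hn0.le, ← mul_assoc, one_div_mul_cancel (by linarith), one_mul,
      Real.rpow_natCast]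
  -- one term
  have hterm : ∀ (T : Finset ℕ) (R : Finset (Fin n)),
      Prob p (fun G => times A G (A.output q G) R q = T ∧ Good A q m a R G)
        ≤ ρ ^ m * (x ^ T.card * ((1 : ℝ) / n) ^ R.card) := by
    intro T R
    set w : ℝ := max m (max (T.card : ℝ) (a * R.card)) with hw
    have hwm : m ≤ w := le_max_left _ _
    have hwT : (T.card : ℝ) ≤ w := (le_max_left _ _).trans (le_max_right _ _)
    have hwR : a * (R.card : ℝ) ≤ w := (le_max_right _ _).trans (le_max_right _ _)
    have hw0 : 0 ≤ w := hm.le.trans hwm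
    refine (prob_fixed h0 h1 A q T R ha le_rfl).trans ?_
    rw [← hw, ← hr]
    calc r ^ ((a - 1) * w) = (r ^ (a - 1)) ^ w := Real.rpow_mul hr0.le _ _
      _ ≤ (ρ * x * z) ^ w :=
          Real.rpow_le_rpow (Real.rpow_nonneg hr0.le _) hρ hw0
      _ = ρ ^ w * x ^ w * z ^ w := by
          rw [Real.mul_rpow (by positivity) hz0.le, Real.mul_rpow hρ0.le hx0.le]
      _ ≤ ρ ^ m * x ^ (T.card : ℝ) * z ^ (a * (R.card : ℝ)) := by
          refine mul_le_mul (mul_le_mul ?_ ?_ (Real.rpow_nonneg hx0.le _)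
            (Real.rpow_nonneg hρ0.le _)) ?_ (Real.rpow_nonneg hz0.le _) (by positivity)
          · exact Real.rpow_le_rpow_of_exponent_ge hρ0 hρ1 hwm
          · exact Real.rpow_le_rpow_of_exponent_ge hx0 hx1 hwT
          · exact Real.rpow_le_rpow_of_exponent_ge hz0 hz1 hwR
      _ = ρ ^ m * (x ^ T.card * ((1 : ℝ) / n) ^ R.card) := by
          rw [Real.rpow_natCast, hza, mul_assoc]
  calc Prob p (fun G => ∃ R, Good A q m a R G)
      ≤ Prob p (fun G => ∃ TR ∈ ((Finset.range q).powerset ×ˢ
          (Finset.univ : Finset (Fin n)).powerset : Finset (Finset ℕ × Finset (Fin n))),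
          times A G (A.output q G) TR.2 q = TR.1 ∧ Good A q m a TR.2 G) := by
        refine Prob_mono h0 h1 ?_
        rintro G ⟨R, hR⟩
        refine ⟨(times A G (A.output q G) R q, R), ?_, rfl, hR⟩
        rw [Finset.mem_product, Finset.mem_powerset, Finset.mem_powerset]
        exact ⟨Finset.filter_subset _ _, Finset.subset_univ _⟩
    _ ≤ ∑ TR ∈ ((Finset.range q).powerset ×ˢ
          (Finset.univ : Finset (Fin n)).powerset : Finset (Finset ℕ × Finset (Fin n))),
          Prob p (fun G => times A G (A.output q G) TR.2 q = TR.1 ∧ Good A q m a TR.2 G) :=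
        Prob_exists h0 h1 _ _
    _ ≤ ∑ TR ∈ ((Finset.range q).powerset ×ˢ
          (Finset.univ : Finset (Fin n)).powerset : Finset (Finset ℕ × Finset (Fin n))),
          ρ ^ m * (x ^ TR.1.card * ((1 : ℝ) / n) ^ TR.2.card) :=
        Finset.sum_le_sum fun TR _ => hterm _ _
    _ = ρ ^ m * ((1 + x) ^ q * (1 + (1 : ℝ) / n) ^ n) := by
        rw [← Finset.mul_sum, Finset.sum_product]
        congr 1
        have e3 := sum_powerset_pow (Finset.range q) x
        have e4 := sum_powerset_pow (Finset.univ : Finset (Fin n)) ((1 : ℝ) / n)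
        rw [Finset.card_range] at e3
        rw [Finset.card_univ, Fintype.card_fin] at e4
        rw [← e3, ← e4, Finset.sum_mul_sum]
    _ ≤ ρ ^ m * (Real.exp m * Real.exp 1) := by
        refine mul_le_mul_of_nonneg_left ?_ (Real.rpow_nonneg hρ0.le _)
        have e1 : (1 + x) ^ q ≤ Real.exp m := by
          calc (1 + x) ^ q ≤ Real.exp x ^ q :=
                pow_le_pow_left₀ (by linarith) (by linarith [Real.add_one_le_exp x]) _
            _ = Real.exp (q * x) := by rw [← Real.exp_nat_mul]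
            _ ≤ Real.exp m := by
                apply Real.exp_le_exp.2
                calc (q : ℝ) * x ≤ Q * x := mul_le_mul_of_nonneg_right hq hx0.le
                  _ = m := by rw [hx]; field_simp
        have e2 : (1 + (1 : ℝ) / n) ^ n ≤ Real.exp 1 := by
          calc (1 + (1 : ℝ) / n) ^ n ≤ Real.exp (1 / n) ^ n :=
                pow_le_pow_left₀ (by positivity)
                  (by linarith [Real.add_one_le_exp ((1 : ℝ) / n)]) _
            _ = Real.exp 1 := by
                rw [← Real.exp_nat_mul]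
                congr 1
                field_simp
        exact mul_le_mul e1 e2 (by positivity) (Real.exp_pos _).le
    _ = Real.exp (m + 1) * ρ ^ m := by
        rw [Real.exp_add]; ring

end Pool.Agent.H51Q
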